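import Pool.Agent.Helper96.SE.Goals

/-!
# The main theorem from the packets
-/

open NumberField Height
open Pool.Agent.Results.MP_e44225_nt.SUnitDisproof (logPlus Place nabs Above logPlus_nonneg
  logPlus_mono log_le_logPlus nabs_nonneg infinite_finitePlace)

namespace Pool.Agent.Helper96.SE

universe u

section lemmas

variable {k : Type u} [Field k]

lemma bb_eq [DecidableEq k] (n : ℕ) (E : Finset k) (c a₀ a₁ r s : k) (ha₀ : a₀ ∈ E)
    (hr : r ≠ 0) (hs : s ≠ 0) :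
    bb n E c a₀ a₁ r s =
      (s ^ E.card / r) ^ n * ff E c (a₀ + (a₁ - a₀) * (r / s) ^ n) := by
  unfold bb ff
  rw [← Finset.mul_prod_erase E _ ha₀]
  have h1 : ∀ a ∈ E.erase a₀, a₀ + (a₁ - a₀) * (r / s) ^ n - a =
      ((a₁ - a₀) * r ^ n - (a - a₀) * s ^ n) / s ^ n := by
    intro a _
    rw [div_pow]
    field_simp
    ring
  rw [Finset.prod_congr rfl h1, Finset.prod_div_distrib, Finset.prod_const,
    Finset.card_erase_of_mem ha₀]
  set Q₀ : k := ∏ a ∈ E.erase a₀, ((a₁ - a₀) * r ^ n - (a - a₀) * s ^ n) with hQ₀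
  have hcard : 0 < E.card := Finset.card_pos.mpr ⟨a₀, ha₀⟩
  obtain ⟨j, hj⟩ : ∃ j, E.card = j + 1 := ⟨E.card - 1, by omega⟩
  rw [hj, Nat.add_sub_cancel]
  have hrn : r ^ n ≠ 0 := pow_ne_zero _ hr
  have hsn : s ^ n ≠ 0 := pow_ne_zero _ hs
  have h2 : a₀ + (a₁ - a₀) * (r / s) ^ n - a₀ = (a₁ - a₀) * (r ^ n / s ^ n) := by
    rw [div_pow]; ring
  rw [h2, div_pow, ← pow_mul, mul_comm (j + 1) n, pow_mul, pow_succ]
  have h3 : (s ^ n) ^ j ≠ 0 := pow_ne_zero _ hsn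
  field_simp

lemma ff_ne_zero {E : Finset k} {c x : k} (hc : c ≠ 0) (hx : x ∉ E) : ff E c x ≠ 0 := by
  unfold ff
  refine mul_ne_zero hc (Finset.prod_ne_zero_iff.mpr fun a ha => ?_)
  rw [sub_ne_zero]
  rintro rfl
  exact hx ha

lemma finite_bad (n : ℕ) (hn : 1 ≤ n) (E : Finset k) (a₀ a₁ : k) (hne : a₀ ≠ a₁) :
    {t : k | t ≠ 1 ∧ a₀ + (a₁ - a₀) * t ^ n ∈ E}.Finite := by
  classical
  have hδ : a₁ - a₀ ≠ 0 := sub_ne_zero.mpr (Ne.symm hne)
  refine (Finset.finite_toSet (E.biUnion fun a =>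
    (Polynomial.nthRoots n ((a - a₀) / (a₁ - a₀))).toFinset)).subset ?_
  rintro t ⟨-, ht⟩
  simp only [Finset.coe_biUnion, Set.mem_iUnion]
  refine ⟨_, ht, ?_⟩
  simp only [Finset.mem_coe, Multiset.mem_toFinset]
  rw [Polynomial.mem_nthRoots (by omega)]
  field_simp
  ring

end lemmas

/-- the construction over `k`. -/
theorem rat_of (hA : APP.{u}) (hB : RB.{u}) (hH : RH.{u}) : RAT.{u} := by
  intro k _ _ n E c S hn hE hc hS hSf hS2
  classical
  obtain ⟨w₀, hw₀S⟩ := hSf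
  obtain ⟨a₀, ha₀, a₁, ha₁, hne⟩ := Finset.one_lt_card.mp (by omega : 1 < E.card)
  set T : Finset (FinitePlace k) := S.toRight.erase w₀ with hT
  have hw₀T : w₀ ∉ T := by simp [hT]
  have hnotS : ∀ w : FinitePlace k, (Sum.inr w : Place k) ∉ S → w ∉ T := by
    intro w hw hwT
    rw [hT, Finset.mem_erase, Finset.mem_toRight] at hwT
    exact hw hwT.2
  have hL : S.toLeft = Finset.univ := by
    ext v
    simp [hS v]
  have hcard : S.card = Units.rank k + T.card + 2 := by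
    have h2 := Finset.card_toLeft_add_card_toRight (u := S)
    have h3 : T.card = S.toRight.card - 1 := by
      rw [hT, Finset.card_erase_of_mem]
      simpa using hw₀S
    have h4 : 0 < S.toRight.card := Finset.card_pos.mpr ⟨w₀, by simpa using hw₀S⟩
    have h5 : S.toLeft.card = Units.rank k + 1 := by
      rw [hL, Finset.card_univ, Units.rank]
      have : 0 < Fintype.card (InfinitePlace k) := Fintype.card_pos
      omega
    omega
  have hρ : 0 < Units.rank k + T.card := by omega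
  obtain ⟨L, hL0, happ⟩ := hA k T w₀ hw₀T hρ
  obtain ⟨q, hq, C₁, hb⟩ := hB k n E c a₀ a₁ hn ha₀ ha₁ hne hc
  obtain ⟨C₂, hH'⟩ := hH k n E a₀ a₁ S w₀ hn ha₀ ha₁ hne hS hw₀S
  set N : ℕ := Ideal.absNorm w₀.maximalIdeal.asIdeal with hN
  have hN1 : 1 < N := NumberField.HeightOneSpectrum.one_lt_absNorm w₀.maximalIdeal
  have hN1' : (1 : ℝ) < N := by exact_mod_cast hN1
  have hN0 : (0 : ℝ) < N := by linarith
  have hδ0 : 0 ≤ w₀ (a₁ - a₀) := apply_nonneg _ _
  have hn0 : (0 : ℝ) < (n : ℝ) := by exact_mod_cast (by omega : 0 < n)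
  set C : ℝ := |C₁| + |C₂| + w₀ (a₁ - a₀) + n * L with hC
  have hnL : 0 ≤ (n : ℝ) * L := mul_nonneg hn0.le hL0
  -- avoid the bad `t`
  obtain ⟨δ, hδ, hδF⟩ : ∃ δ : ℝ, 0 < δ ∧
      ∀ t ∈ {t : k | t ≠ 1 ∧ a₀ + (a₁ - a₀) * t ^ n ∈ E}, δ ≤ w₀ (t - 1) := by
    have hfin := finite_bad n hn E a₀ a₁ hne
    have hne' : ((insert 1 ((fun t => w₀ (t - 1)) ''
        {t : k | t ≠ 1 ∧ a₀ + (a₁ - a₀) * t ^ n ∈ E}) : Set ℝ)).Nonempty :=
      ⟨1, Set.mem_insert _ _⟩
    obtain ⟨δ, hδmem, hδmin⟩ := Set.exists_min_image _ (fun x : ℝ => x)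
      ((hfin.image (fun t => w₀ (t - 1))).insert 1) hne'
    refine ⟨δ, ?_, fun x hx => hδmin _ (Set.mem_insert_of_mem _ ⟨x, hx, rfl⟩)⟩
    rcases hδmem with rfl | ⟨x, hx, rfl⟩
    · exact one_pos
    · refine FinitePlace.pos_iff.mpr ?_
      rw [sub_ne_zero]
      exact hx.1
  refine ⟨w₀, a₁, C, ha₁, ?_⟩
  intro m₀
  have hev1 : ∀ᶠ m : ℕ in Filter.atTop, ((N : ℝ) ^ m)⁻¹ < δ := by
    have := (tendsto_inv_atTop_zero.comp (tendsto_pow_atTop_atTop_of_one_lt hN1'))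
    exact this.eventually_lt_const hδ
  obtain ⟨m, hmδ, hm₀⟩ := (hev1.and (Filter.eventually_ge_atTop m₀)).exists
  obtain ⟨r, s, hr, hs, hrs, hclose, hunit, hcop, hheight⟩ := happ m
  have hr' : (r : k) ≠ 0 := by simpa using hr
  have hs' : (s : k) ≠ 0 := by simpa using hs
  set t : k := (r : k) / (s : k) with ht
  have ht1 : t ≠ 1 := by
    rw [ht, Ne, div_eq_one_iff_eq hs']
    intro h
    exact hrs (by exact_mod_cast h)
  set x : k := a₀ + (a₁ - a₀) * t ^ n with hx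
  have hxE : x ∉ E := by
    intro h
    have := hδF t ⟨ht1, h⟩
    linarith
  obtain ⟨b, hbeq, hbn⟩ := hb r s hr hs hcop
  set z : k := (q : k) ^ E.card * ((s : k) ^ E.card / (r : k)) with hz
  have hq' : (q : k) ≠ 0 := by simpa using hq
  have hz0 : z ≠ 0 := by
    rw [hz]
    exact mul_ne_zero (pow_ne_zero _ hq') (div_ne_zero (pow_ne_zero _ hs') hr')
  have hbz : (b : k) = z ^ n * ff E c x := by
    rw [hbeq, bb_eq n E c a₀ a₁ (r : k) (s : k) ha₀ hr' hs', hz, mul_pow, ← pow_mul,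
      mul_comm E.card n, mul_assoc]
  have hb0 : b ≠ 0 := by
    intro h
    rw [h] at hbz
    have : z ^ n * ff E c x ≠ 0 := mul_ne_zero (pow_ne_zero _ hz0) (ff_ne_zero hc hxE)
    apply this
    rw [← hbz]
    simp
  obtain ⟨hw1, hw2⟩ := hunit w₀ hw₀T
  obtain ⟨e1, e2, e3⟩ := hH' r s hr hs hrs (fun w hw => hunit w (hnotS w hw)) hw1 hw2 hxE
  refine ⟨m, hm₀, x, z, b, hxE, hz0, hb0, hbz, ?_, ?_, ?_⟩
  · have hinv : 0 ≤ ((N : ℝ) ^ m)⁻¹ := by positivity
    calc w₀ (x - a₁) ≤ w₀ (a₁ - a₀) * w₀ (t - 1) := e3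
      _ ≤ w₀ (a₁ - a₀) * ((N : ℝ) ^ m)⁻¹ := mul_le_mul_of_nonneg_left hclose hδ0
      _ ≤ C * ((N : ℝ) ^ m)⁻¹ := by
          refine mul_le_mul_of_nonneg_right ?_ hinv
          rw [hC]
          have := abs_nonneg C₁
          have := abs_nonneg C₂
          linarith
  · have hbn' := hbn hb0
    have h1n : 0 ≤ 1 - 1 / (n : ℝ) := by
      rw [sub_nonneg, div_le_one hn0]
      exact_mod_cast hn
    have h1n' : 1 - 1 / (n : ℝ) ≤ 1 := by
      have : 0 ≤ 1 / (n : ℝ) := by positivity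
      linarith
    have h2 : (1 - 1 / (n : ℝ)) * Real.log |(Algebra.norm ℤ b : ℝ)| ≤
        (1 - 1 / (n : ℝ)) * ((E.card : ℝ) - 1) * ((n : ℝ) * logHeight₁ t) + |C₁| := by
      have h3 := mul_le_mul_of_nonneg_left hbn' h1n
      have h4 : (1 - 1 / (n : ℝ)) * C₁ ≤ |C₁| := by
        calc (1 - 1 / (n : ℝ)) * C₁ ≤ (1 - 1 / (n : ℝ)) * |C₁| :=
              mul_le_mul_of_nonneg_left (le_abs_self _) h1n
          _ ≤ 1 * |C₁| := mul_le_mul_of_nonneg_right h1n' (abs_nonneg _)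
          _ = |C₁| := one_mul _
      calc (1 - 1 / (n : ℝ)) * Real.log |(Algebra.norm ℤ b : ℝ)| ≤ _ := h3
        _ = (1 - 1 / (n : ℝ)) * ((E.card : ℝ) - 1) * ((n : ℝ) * logHeight₁ t) +
            (1 - 1 / (n : ℝ)) * C₁ := by rw [ht]; ring
        _ ≤ _ := by linarith
    have hpos : 0 < w₀ (t - 1) := FinitePlace.pos_iff.mpr (sub_ne_zero.mpr ht1)
    have h5 : (m : ℝ) * Real.log (N : ℝ) ≤ - Real.log (w₀ (t - 1)) := by
      rw [← Real.log_pow, ← Real.log_inv]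
      apply Real.log_le_log (by positivity)
      rw [le_inv_comm₀ (by positivity) hpos]
      exact hclose
    have h6 : 1 / (n : ℝ) * (m * Real.log (N : ℝ)) ≤ 1 / (n : ℝ) * (- Real.log (w₀ (t - 1))) :=
      mul_le_mul_of_nonneg_left h5 (by positivity)
    have h7 : C₂ ≤ |C₂| := le_abs_self _
    have h8 : |C₁| + |C₂| ≤ C := by rw [hC]; linarith
    linarith
  · have hexp : ((S.card : ℝ) - 2) = ((Units.rank k + T.card : ℕ) : ℝ) := by
      rw [hcard]; push_cast; ring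
    rw [hexp]
    set X : ℝ := (N : ℝ) ^ ((m : ℝ) / ((Units.rank k + T.card : ℕ) : ℝ)) with hX
    have hX1 : 1 ≤ X := Real.one_le_rpow hN1'.le (by positivity)
    calc logHeight₁ x ≤ (n : ℝ) * logHeight₁ t + C₂ := e2
      _ ≤ (n : ℝ) * (L * X) + |C₂| :=
          add_le_add (mul_le_mul_of_nonneg_left hheight hn0.le) (le_abs_self _)
      _ ≤ (n : ℝ) * (L * X) + |C₂| * X := by
          have : |C₂| ≤ |C₂| * X := le_mul_of_one_le_right (abs_nonneg _) hX1
          linarith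
      _ = ((n : ℝ) * L + |C₂|) * X := by ring
      _ ≤ C * X := by
          refine mul_le_mul_of_nonneg_right ?_ (by linarith)
          rw [hC]
          have := abs_nonneg C₁
          linarith

/-- the main theorem. -/
theorem main_of (hR : RAT.{u}) (hT : TRS.{u}) : Main.{u} := by
  intro k _ _ n E c hn hE hc T S hS hSf C hC hCS r hr hK hA mS hB1 hB2 hB3
  obtain ⟨B₁, hB₁⟩ := hB1
  obtain ⟨B₂, hB₂⟩ := hB2
  obtain ⟨B₃, hB₃⟩ := hB3
  have hn0 : (0 : ℝ) < (n : ℝ) := by exact_mod_cast (by omega : 0 < n)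
  have hS2 : 2 < S.card := by
    have h1 : 0 < ((S.card : ℝ) - 2) / n := hC.trans hCS
    have h2 : 0 < (S.card : ℝ) - 2 := by
      by_contra h
      push Not at h
      have := div_nonpos_of_nonpos_of_nonneg h hn0.le
      linarith
    have h3 : (2 : ℝ) < (S.card : ℝ) := by linarith
    exact_mod_cast h3
  obtain ⟨w₀, a₁, C₁, ha₁, hrat⟩ := hR k n E c S hn hE hc hS hSf hS2
  set N : ℕ := Ideal.absNorm w₀.maximalIdeal.asIdeal with hN
  have hN1 : 1 < N := NumberField.HeightOneSpectrum.one_lt_absNorm w₀.maximalIdeal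
  have hN1' : (1 : ℝ) < N := by exact_mod_cast hN1
  have hN0 : (0 : ℝ) < N := by linarith
  have hlogN : 0 < Real.log N := Real.log_pos hN1'
  set ρ : ℝ := (S.card : ℝ) - 2 with hρ
  have hρ0 : 0 < ρ := by
    have : (2 : ℝ) < (S.card : ℝ) := by exact_mod_cast hS2
    rw [hρ]; linarith
  intro hfin
  set F : Set (Pt n E c) := {P : Pt n E c | P ∉ T ∧ deg P ≤ r ∧
      ¬ (hK P + mS P < C * logPlus (hA P) + logDiscr P)} with hF
  set ι := algebraMap k (AlgebraicClosure k) with hι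
  have hinj : Function.Injective ι := (algebraMap k (AlgebraicClosure k)).injective
  have hfin2 : (F ∪ (T : Set (Pt n E c))).Finite := hfin.union T.finite_toSet
  have hfin3 : (ι ⁻¹' ((fun P : Pt n E c => P.x) '' (F ∪ (T : Set (Pt n E c))))).Finite :=
    (hfin2.image _).preimage hinj.injOn
  obtain ⟨δ, hδ, hδF⟩ : ∃ δ : ℝ, 0 < δ ∧
      ∀ x ∈ ι ⁻¹' ((fun P : Pt n E c => P.x) '' (F ∪ (T : Set (Pt n E c)))),
        δ ≤ w₀ (x - a₁) := by
    have hne' : ((insert 1 ((fun x => w₀ (x - a₁)) ''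
        (ι ⁻¹' ((fun P : Pt n E c => P.x) '' (F ∪ (T : Set (Pt n E c)))))) : Set ℝ)).Nonempty :=
      ⟨1, Set.mem_insert _ _⟩
    obtain ⟨δ, hδmem, hδmin⟩ := Set.exists_min_image _ (fun x : ℝ => x)
      ((hfin3.image (fun x => w₀ (x - a₁))).insert 1) hne'
    refine ⟨δ, ?_, fun x hx => hδmin _ (Set.mem_insert_of_mem _ ⟨x, hx, rfl⟩)⟩
    rcases hδmem with rfl | ⟨x, ⟨P, _, hPx⟩, rfl⟩
    · exact one_pos
    · refine FinitePlace.pos_iff.mpr ?_
      rw [sub_ne_zero]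
      rintro rfl
      exact P.notMem _ ha₁ hPx
  set c₀ : ℝ := (|B₂| + 1) * (1 + |C₁|) with hc₀
  have hc₀1 : 1 ≤ c₀ := by
    have h1 : (1 : ℝ) ≤ |B₂| + 1 := by linarith [abs_nonneg B₂]
    have h2 : (1 : ℝ) ≤ 1 + |C₁| := by linarith [abs_nonneg C₁]
    calc (1 : ℝ) = 1 * 1 := by ring
      _ ≤ c₀ := mul_le_mul h1 h2 zero_le_one (by linarith)
  set dk : ℝ := Real.log |(NumberField.discr k : ℝ)| +
    (Module.finrank ℚ k : ℝ) * Real.log n with hdk
  have hev1 : ∀ᶠ m : ℕ in Filter.atTop, |C₁| * ((N : ℝ) ^ m)⁻¹ < δ := by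
    have h1 := (tendsto_inv_atTop_zero.comp (tendsto_pow_atTop_atTop_of_one_lt hN1')).const_mul
      |C₁|
    rw [mul_zero] at h1
    exact h1.eventually_lt_const hδ
  have hev2 : ∀ᶠ m : ℕ in Filter.atTop,
      (C * Real.log c₀ + dk + B₁ + B₃ + C₁) ≤ (Real.log N * (1 / n - C / ρ)) * m := by
    have hpos : 0 < Real.log N * (1 / n - C / ρ) := by
      apply mul_pos hlogN
      rw [sub_pos, div_lt_div_iff₀ hρ0 hn0, one_mul]
      rwa [lt_div_iff₀ hn0] at hCS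
    have := (tendsto_natCast_atTop_atTop (R := ℝ)).const_mul_atTop hpos
    exact this.eventually_ge_atTop _
  obtain ⟨m₀, hm₀⟩ := Filter.eventually_atTop.mp (hev1.and hev2)
  obtain ⟨m, hmm, x, z, b, hxE, hz0, hb0, hbz, e1, e2, e3⟩ := hrat m₀
  obtain ⟨hm1, hm2⟩ := hm₀ m hmm
  obtain ⟨P, hPx, hdeg, hht, hprox, hdisc⟩ := hT k n E c x z b hn hxE hz0 hb0 hbz
  have hinv : 0 ≤ ((N : ℝ) ^ m)⁻¹ := by positivity
  have hPU : P ∉ F ∪ (T : Set (Pt n E c)) := by
    intro h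
    have h1 := hδF x ⟨P, h, hPx⟩
    have h2 : C₁ * ((N : ℝ) ^ m)⁻¹ ≤ |C₁| * ((N : ℝ) ^ m)⁻¹ :=
      mul_le_mul_of_nonneg_right (le_abs_self _) hinv
    linarith
  have hPT : P ∉ T := fun h => hPU (Or.inr h)
  apply hPU
  left
  refine ⟨hPT, hdeg.trans hr, ?_⟩
  rw [not_lt]
  have g1 := (abs_le.mp (hB₁ P)).1
  have g3 := hB₃ P hPT
  rw [hprox S] at g3
  rw [hht] at g1
  set X : ℝ := (N : ℝ) ^ ((m : ℝ) / ρ) with hX
  have hX1 : 1 ≤ X := Real.one_le_rpow hN1'.le (by positivity)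
  have hXpos : 0 < X := by linarith
  have hhx0 : 0 ≤ logHeight₁ x := zero_le_logHeight₁ _
  have g2 : hA P ≤ c₀ * X := by
    have h1 : logHeight₁ x ≤ |C₁| * X :=
      e3.trans (mul_le_mul_of_nonneg_right (le_abs_self _) hXpos.le)
    have h2 : 1 + logHeight₁ x ≤ (1 + |C₁|) * X := by
      have : (1 + |C₁|) * X = X + |C₁| * X := by ring
      linarith
    calc hA P ≤ B₂ * (1 + ht P) := hB₂ P
      _ ≤ (|B₂| + 1) * (1 + logHeight₁ x) := by
          rw [hht]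
          have := le_abs_self B₂
          exact mul_le_mul_of_nonneg_right (by linarith) (by linarith)
      _ ≤ (|B₂| + 1) * ((1 + |C₁|) * X) :=
          mul_le_mul_of_nonneg_left h2 (by positivity)
      _ = c₀ * X := by rw [hc₀]; ring
  have g4 : logPlus (hA P) ≤ Real.log c₀ + (m : ℝ) / ρ * Real.log N := by
    have h2 : logPlus (hA P) ≤ logPlus (c₀ * X) := logPlus_mono g2
    have h3 : logPlus (c₀ * X) = Real.log (c₀ * X) := by
      unfold logPlus
      rw [max_eq_right]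
      calc (1 : ℝ) = 1 * 1 := by ring
        _ ≤ c₀ * X := mul_le_mul hc₀1 hX1 zero_le_one (by linarith)
    rw [h3, Real.log_mul (by positivity) (by positivity), hX, Real.log_rpow hN0] at h2
    exact h2
  have g5 : C * logPlus (hA P) ≤ C * (Real.log c₀ + (m : ℝ) / ρ * Real.log N) :=
    mul_le_mul_of_nonneg_left g4 hC.le
  have g6 : C * (Real.log c₀ + (m : ℝ) / ρ * Real.log N) + dk + B₁ + B₃ + C₁ ≤
      1 / (n : ℝ) * (m * Real.log N) := by
    have h2 : (Real.log N * (1 / n - C / ρ)) * m =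
        1 / (n : ℝ) * (m * Real.log N) - C * ((m : ℝ) / ρ * Real.log N) := by
      ring
    rw [h2] at hm2
    have h3 : C * (Real.log c₀ + (m : ℝ) / ρ * Real.log N) =
        C * Real.log c₀ + C * ((m : ℝ) / ρ * Real.log N) := by ring
    rw [h3]
    linarith
  have g7 : logDiscr P ≤ dk + (1 - 1 / (n : ℝ)) * Real.log |(Algebra.norm ℤ b : ℝ)| := hdisc
  linarith

/-- the negated form of Q1. -/
theorem neg_of (hM : Main.{u}) (k : Type u) [Field k] [NumberField k] (n : ℕ) (E : Finset k)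
    (c : k) (hn : 1 ≤ n) (hE : 2 ≤ E.card) (hc : c ≠ 0) (T : Finset (Pt n E c)) (C : ℝ)
    (hC : 0 < C) : ∃ r : ℕ, 1 ≤ r ∧ ∃ S : Finset (Place k), Fails k n E c T r S C := by
  have := infinite_finitePlace (k := k)
  obtain ⟨U, hU⟩ := Infinite.exists_subset_card_eq (FinitePlace k) (⌈C * n⌉₊ + 3)
  refine ⟨n, hn, (Finset.univ : Finset (InfinitePlace k)).disjSum U, ?_⟩
  refine hM k n E c hn hE hc T _ (fun v => by simp) ?_ C hC ?_ n le_rfl
  · have : U.Nonempty := by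
      rw [← Finset.card_pos, hU]; omega
    obtain ⟨v, hv⟩ := this
    exact ⟨v, by simpa using hv⟩
  · have hn0 : (0 : ℝ) < (n : ℝ) := by exact_mod_cast (by omega : 0 < n)
    rw [lt_div_iff₀ hn0, Finset.card_disjSum, hU]
    push_cast
    have h2 := Nat.le_ceil (C * n)
    have h3 : (0 : ℝ) ≤ ((Finset.univ : Finset (InfinitePlace k)).card : ℝ) := Nat.cast_nonneg _
    linarith

end Pool.Agent.Helper96.SE
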