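import Pool.Agent.Results.MP_e44225_nt.SUnitDisproof

/-!
# Vojta's inequality with a logarithmic error term fails on superelliptic curves (definitions)

`X` is the smooth projective curve over the number field `k` with the affine equation
`y ^ n = c ∏_{a ∈ E} (x - a)`, where `n ≥ 1`, `c ≠ 0` and `E ⊆ k` is finite.  The map `x : X → ℙ¹`
has degree `n`; it is totally ramified over every `a ∈ E`, and over infinity there are
`gcd(n, #E)` points, each with ramification index `eInf = n / gcd(n, #E)`; elsewhere it is
unramified.  `D` is the reduced divisor of all points of `X` over `E ∪ {∞}`.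
The absolute values `nabs`, the places `Place`, the relation `Above` and `logPlus` are those of
the first theorem on this problem, `Pool.Agent.Results.MP_e44225_nt.SUnitDisproof`.
-/

open NumberField Height
open Pool.Agent.Results.MP_e44225_nt.SUnitDisproof (logPlus Place nabs Above)

namespace Pool.Agent.Helper96.SE

universe u

/-- The ramification index `n / gcd(n, #E)` of the points of `X` over infinity. -/
def eInf {k : Type u} (n : ℕ) (E : Finset k) : ℕ := n / Nat.gcd n E.card

/-- The rational number `κ` such that the canonical divisor `K_X = x^*(-2 [∞]) + R`, where `R` is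
the ramification divisor, satisfies `h_{K_X} = κ h(x) + O(1)`:
`κ = -2 + (1 - 1/n) #E + (1 - 1/eInf)`. -/
noncomputable def kappa {k : Type u} (n : ℕ) (E : Finset k) : ℝ :=
  -2 + (1 - 1 / (n : ℝ)) * (E.card : ℝ) + (1 - 1 / (eInf n E : ℝ))

/-- The local Weil function of `D` at the place `w` of `L`, at a point with first coordinate
`x ∈ L`: `x^*[a] = n [P_a]` for `a ∈ E` and `x^*[∞] = eInf D_∞`. -/
noncomputable def weil {k L : Type u} [Field k] [Field L] [NumberField L] [Algebra k L]
    (n : ℕ) (E : Finset k) (w : Place L) (x : L) : ℝ :=
  logPlus (nabs w x) / (eInf n E : ℝ) +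
    ∑ a ∈ E, logPlus (nabs w (x - algebraMap k L a)⁻¹) / (n : ℝ)

section points

variable {k : Type u} [Field k] [NumberField k]

/-- A point of `X` outside the support of `D`, with values in the algebraic closure of `k`. -/
structure Pt (n : ℕ) (E : Finset k) (c : k) : Type u where
  /-- the first affine coordinate -/
  x : AlgebraicClosure k
  /-- the second affine coordinate -/
  y : AlgebraicClosure k
  /-- the equation -/
  eqn : y ^ n = algebraMap k (AlgebraicClosure k) c *
    ∏ a ∈ E, (x - algebraMap k (AlgebraicClosure k) a)
  /-- the point is not over `E` -/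
  notMem : ∀ a ∈ E, x ≠ algebraMap k (AlgebraicClosure k) a

variable {n : ℕ} {E : Finset k} {c : k}

/-- The residue field `k_P = k(x, y)` of the point `P = (x, y)`. -/
noncomputable def resField (P : Pt n E c) : IntermediateField k (AlgebraicClosure k) :=
  IntermediateField.adjoin k {P.x, P.y}

/-- The residue field is a number field. -/
instance numberField_resField (P : Pt n E c) : NumberField (resField P) :=
  haveI : FiniteDimensional k (resField P) :=
    IntermediateField.finiteDimensional_adjoin fun x _ => Algebra.IsIntegral.isIntegral x
  NumberField.of_module_finite k (resField P)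

/-- The degree `[k_P : k]`. -/
noncomputable def deg (P : Pt n E c) : ℕ := Module.finrank k (resField P)

/-- The first coordinate of `P`, as an element of the residue field. -/
noncomputable def xRes (P : Pt n E c) : resField P :=
  ⟨P.x, IntermediateField.subset_adjoin k _ (Set.mem_insert _ _)⟩

/-- The Weil height of the ample line sheaf `x^* O(1)` at `P`, normalised relative to `k`: the
height of `x(P)` over the residue field `k_P`, divided by `[k_P : k]`. -/
noncomputable def ht (P : Pt n E c) : ℝ := logHeight₁ (xRes P) / deg P

/-- The logarithmic discriminant `d(P) = log |Disc k_P| / [k_P : k]`. -/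
noncomputable def logDiscr (P : Pt n E c) : ℝ :=
  Real.log |(NumberField.discr (resField P) : ℝ)| / deg P

/-- The standard proximity function `m_S(D, P)` relative to the finite set `S` of places of `k`:
the sum of the Weil functions of `D` over the places `w` of `k_P` above `S`, divided by
`[k_P : k]`. -/
noncomputable def prox (S : Finset (Place k)) (P : Pt n E c) : ℝ :=
  (∑ᶠ w ∈ {w : Place (resField P) | ∃ v ∈ S, Above v w}, weil n E w (xRes P)) / deg P

end points

/-- `Fails k n E c T r S C`: for `X` the curve `y ^ n = c ∏_{a ∈ E} (x - a)` over `k` and the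
reduced divisor `D + ∑_{t ∈ T} [t]`, whatever the choice of the Weil heights `hK` of the canonical
sheaf and `hA` of an ample line sheaf, and of the proximity function `mS` of the divisor relative
to `S`, the inequality `hK(P) + mS(P) < C log⁺ hA(P) + d(P)` fails at infinitely many algebraic
points `P` of degree at most `r` over `k`, outside the support of the divisor.  Of `hA` we only
use that it is at most `B (1 + ht)` for some `B` (every height of every line sheaf is), of `mS`
that it is bounded below by `m_S(D, ·) - B` for some `B` (every proximity function of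
`D + ∑_{t ∈ T} [t]` is). -/
def Fails (k : Type u) [Field k] [NumberField k] (n : ℕ) (E : Finset k) (c : k)
    (T : Finset (Pt n E c)) (r : ℕ) (S : Finset (Place k)) (C : ℝ) : Prop :=
  ∀ hK hA mS : Pt n E c → ℝ,
    (∃ B : ℝ, ∀ P, |hK P - kappa n E * ht P| ≤ B) →
    (∃ B : ℝ, ∀ P, hA P ≤ B * (1 + ht P)) →
    (∃ B : ℝ, ∀ P, P ∉ T → prox S P - B ≤ mS P) →
    {P : Pt n E c | P ∉ T ∧ deg P ≤ r ∧
      ¬ (hK P + mS P < C * logPlus (hA P) + logDiscr P)}.Infinite

/-! ## Auxiliary definitions for the proof -/

section aux

variable {k : Type u} [Field k] [NumberField k]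

/-- the proximity function at a point with first coordinate `x ∈ k`. -/
noncomputable def prox₀ (n : ℕ) (E : Finset k) (S : Finset (Place k)) (x : k) : ℝ :=
  ∑ v ∈ S, (logPlus (nabs v x) / (eInf n E : ℝ) +
    ∑ a ∈ E, logPlus (nabs v (x - a)⁻¹) / (n : ℝ))

/-- the right-hand side of the equation. -/
def ff (E : Finset k) (c : k) (x : k) : k := c * ∏ a ∈ E, (x - a)

/-- `ff E c x` up to an `n`-th power, for `x = a₀ + (a₁ - a₀) (r/s)^n`. -/
def bb [DecidableEq k] (n : ℕ) (E : Finset k) (c a₀ a₁ r s : k) : k :=
  c * (a₁ - a₀) * ∏ a ∈ E.erase a₀, ((a₁ - a₀) * r ^ n - (a - a₀) * s ^ n)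

end aux

end Pool.Agent.Helper96.SE
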