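import Pool.Agent.Helper96.SE.Defs

/-!
# Vojta's inequality with a logarithmic error term fails on superelliptic curves: the packets

Main theorem (`Main` below): `k` a number field, `n ≥ 1`, `E ⊆ k` finite with at least two
elements, `c ≠ 0`, `X : y ^ n = c ∏_{a ∈ E} (x - a)`, `D` = all points over `E ∪ {∞}`.  For every
finite set `S` of places containing the infinite ones and a finite one, every
`0 < C < (#S - 2)/n` and every `r ≥ n` the inequality `h_K + m_S(D, ·) < C log⁺ h_A + d` fails at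
infinitely many points of degree at most `r`.

Idea: `x = a₀ + (a₁ - a₀) (r/s)^n`, where `r/s` is an `S`-unit which is very close to `1` at a finite
place `w₀ ∈ S`.  `K_X + D` is a pullback from the line, so
`h_K + m_S(D) ≥ (1 - 1/n)(#E - 1) n h(r/s) + (1/n) log (1/‖r/s - 1‖_{w₀}) - O(1)`, while the residue
field is generated by an `n`-th root of the integer
`b = q^(n #E) c (a₁ - a₀) ∏_{a ≠ a₀} ((a₁ - a₀) r^n - (a - a₀) s^n)`, so that
`d ≤ (1 - 1/n) log |N b| + O(1) ≤ (1 - 1/n)(#E - 1) n h(r/s) + O(1)`.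
-/

open NumberField Height
open Pool.Agent.Results.MP_e44225_nt.SUnitDisproof (logPlus Place nabs Above)

namespace Pool.Agent.Helper96.SE

universe u

/-- **PLI** (infinite places in an extension).
Proof.  `Above (Sum.inl v) w` iff `w = Sum.inl w'` with `w'.comap (algebraMap k K) = v`; finitely
many.  For such `w'`: `nabs w (algebraMap k K x) = w' (algebraMap k K x) ^ w'.mult = v x ^ w'.mult`,
`w'.mult = v.mult * e` with `e = v.inertiaDeg w'` (`InfinitePlace.mult_mul_finrank`,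
`inertiaDeg_eq_finrank`; or `mult` is `1` or `2`, ramified or not), so it is `(nabs v x) ^ e` and
`logPlus (t ^ e) = e * logPlus t` for `t ≥ 0` (`Real.posLog_pow`, `logPlus_eq_posLog` of
`SUnitDisproof`).  Sum: `InfinitePlace.sum_inertiaDeg_eq_finrank` (in
`NumberTheory/NumberField/Completion/Ramification.lean`).  If the instances of that file are
unpleasant use instead the embeddings: `[K : k]` counts the extensions to `K` of a fixed embedding
`φ` of `k` with `mk φ = v`, and the places above `v` are the classes of the extensions of `φ`. -/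
def PLI : Prop :=
  ∀ (k K : Type u) [Field k] [NumberField k] [Field K] [NumberField K] [Algebra k K]
    (v : InfinitePlace k),
    {w : Place K | Above (Sum.inl v : Place k) w}.Finite ∧
    ∀ x : k, ∑ᶠ w ∈ {w : Place K | Above (Sum.inl v : Place k) w},
      logPlus (nabs w (algebraMap k K x)) =
        (Module.finrank k K : ℝ) * logPlus (nabs (Sum.inl v : Place k) x)

/-- **PLF** (finite places in an extension).
Proof.  `𝔭` the prime of `v`.  `Above (Sum.inr v) w` iff `w = Sum.inr w'` with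
`w'.maximalIdeal.asIdeal` over `𝔭`; finitely many (`Ideal.primesOver` is finite).  For such `w'` with
prime `𝔓`, ramification index `e`, inertia degree `f`: `w' (algebraMap k K x) = v x ^ (e f)`; for
`x = a : 𝓞 k` nonzero this is `FinitePlace.apply_mul_absNorm_pow_eq_one` twice, with
`absNorm 𝔓 = absNorm 𝔭 ^ f` and `multiplicity 𝔓 (span {a}) = e * multiplicity 𝔭 (span {a})`
(write `span {a} = 𝔭 ^ m * 𝔟`, `𝔭 ∤ 𝔟`, and map to `𝓞 K`; or
`HeightOneSpectrum.valuation_liesOver` or similar lemmas of Mathlib on valuations in extensions,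
search `valuation_comap`); for fractions by multiplicativity (as in `finite_place_eq` of
`SUnitDisproof`).  `logPlus (t ^ (e f)) = e f * logPlus t`; sum: `Ideal.sum_ramification_inertia`. -/
def PLF : Prop :=
  ∀ (k K : Type u) [Field k] [NumberField k] [Field K] [NumberField K] [Algebra k K]
    (v : FinitePlace k),
    {w : Place K | Above (Sum.inr v : Place k) w}.Finite ∧
    ∀ x : k, ∑ᶠ w ∈ {w : Place K | Above (Sum.inr v : Place k) w},
      logPlus (nabs w (algebraMap k K x)) =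
        (Module.finrank k K : ℝ) * logPlus (nabs (Sum.inr v : Place k) x)

/-- **HTE** (heights in an extension).  To be proved from `PLI` and `PLF`.
Proof.  `NumberField.logHeight₁_eq` writes `logHeight₁` as the sum of `logPlus (nabs w ·)` over the
infinite places plus the finsum over the finite places.  Every place `w` of `K` lies above exactly
one place `v` of `k` (`comap`; `HeightOneSpectrum.under`).  Let `S` be the finite set of the
infinite places of `k` and the finite `v` with `v x > 1`.  If `w` lies above `v ∉ S`, then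
`logPlus (nabs w (algebraMap k K x)) = 0`, because by `PLF` the sum of these nonnegative numbers
over the finitely many `w` above `v` is `0`.  So `logHeight₁ (algebraMap k K x)` is the sum over
`v ∈ S` of the sums in `PLI`, `PLF`. -/
def HTE : Prop :=
  ∀ (k K : Type u) [Field k] [NumberField k] [Field K] [NumberField K] [Algebra k K] (x : k),
    logHeight₁ (algebraMap k K x) = (Module.finrank k K : ℝ) * logHeight₁ x

/-- **DSC** (discriminant of `k(b^(1/n))`).
Proof.  `natAbs_discr_eq_absNorm_differentIdeal_mul_natAbs_discr_pow`: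
`|disc K| = absNorm (differentIdeal (𝓞 k) (𝓞 K)) * |disc k| ^ [K : k]`.  Let `f` be the minimal
polynomial of `y` over `𝓞 k`.  `X ^ n - C b = f * g` in `(𝓞 k)[X]`
(`minpoly.isIntegrallyClosed_dvd`), so `n y^(n-1) = f'(y) g(y)` lies in `differentIdeal`
(`aeval_derivative_mem_differentIdeal`, with `Algebra.adjoin k {y} = ⊤` from the hypothesis), and
`absNorm (differentIdeal) ∣ |N_{K/ℚ}(n y^(n-1))| = n ^ [K : ℚ] * |N_{K/ℚ} y| ^ (n-1)`
(`Ideal.absNorm_dvd_norm_of_mem` or similar; the right side is not `0`).  From `y ^ n = b`: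
`|N_{K/ℚ} y| ^ n = |N_{K/ℚ} b| = |N_{k/ℚ} b| ^ [K : k]`.  Take logarithms;
`[K : ℚ] = [K : k] [k : ℚ]`. -/
def DSC : Prop :=
  ∀ (k K : Type u) [Field k] [NumberField k] [Field K] [NumberField K] [Algebra k K]
    (n : ℕ) (b : 𝓞 k) (y : 𝓞 K), 1 ≤ n → b ≠ 0 → y ^ n = algebraMap (𝓞 k) (𝓞 K) b →
    IntermediateField.adjoin k {(y : K)} = ⊤ →
    Real.log |(NumberField.discr K : ℝ)| ≤ (Module.finrank k K : ℝ) *
      (Real.log |(NumberField.discr k : ℝ)| + (Module.finrank ℚ k : ℝ) * Real.log n +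
        (1 - 1 / (n : ℝ)) * Real.log |(Algebra.norm ℤ b : ℝ)|)

/-- **APP** (approximation of `1` by `S`-units, with coprime numerator and denominator).
Proof.  This is the lemma `approx` of `SUnitDisproof` with a little more information; copy its
proof.  `exists_gen` gives for `t ∈ T` an element `p t : 𝓞 k` with `w (p t) = 1` for all `w ≠ t`
(and `t (p t) < 1`, `≠ 0`); `g` consists of the fundamental units and the `p t`.  The pigeonhole
gives exponents `a ≠ b : index → Fin (A + 1)` with `∏ g i ^ a i ≡ ∏ g i ^ b i mod 𝔭^m`.  Put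
`r = ∏ g i ^ (a i - b i)`, `s = ∏ g i ^ (b i - a i)` (truncated subtraction of natural numbers), so
`r / s = (∏ g i ^ a i) / (∏ g i ^ b i)`; `r ≠ s` by `exists_family` (third property), since
`r = s` gives `a = b`.  For `w ∉ T` all `w (g i) = 1`.  For `w = t ∈ T` all `w (g i) = 1` except for
`g i = p t`, and only one of `r, s` contains `p t`. -/
def APP : Prop :=
  ∀ (k : Type u) [Field k] [NumberField k] (T : Finset (FinitePlace k)) (w₀ : FinitePlace k),
    w₀ ∉ T → 0 < Units.rank k + T.card →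
    ∃ L : ℝ, 0 ≤ L ∧ ∀ m : ℕ, ∃ r s : 𝓞 k, r ≠ 0 ∧ s ≠ 0 ∧ r ≠ s ∧
      w₀ ((r : k) / (s : k) - 1) ≤ ((Ideal.absNorm w₀.maximalIdeal.asIdeal : ℝ) ^ m)⁻¹ ∧
      (∀ w : FinitePlace k, w ∉ T → w (r : k) = 1 ∧ w (s : k) = 1) ∧
      (∀ w : FinitePlace k, w (r : k) = 1 ∨ w (s : k) = 1) ∧
      logHeight₁ ((r : k) / (s : k)) ≤ L * (Ideal.absNorm w₀.maximalIdeal.asIdeal : ℝ) ^
        ((m : ℝ) / ((Units.rank k + T.card : ℕ) : ℝ))

/-- **RB** (the integer `b` and its norm).
Proof.  Choose a nonzero `q : 𝓞 k` such that `q c (a₁ - a₀)`, `q (a₁ - a₀)` and all `q (a - a₀)`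
(`a ∈ E`) are in `𝓞 k` (a common denominator, `IsLocalization.exist_integer_multiples` or
similar).  Then `q ^ #E * bb ∈ 𝓞 k` (one factor `q` for `c (a₁ - a₀)` and one for each of the
`#E - 1` factors), hence also `b = q ^ (n #E) * bb`.
Norm: `|N b| = ∏_{v infinite} v b ^ mult v` (`InfinitePlace.prod_eq_abs_norm`), and for each infinite
`v`, with `M_v = max (v r) (v s) > 0`, `v ((a₁ - a₀) r^n - (a - a₀) s^n) ≤ K_v M_v ^ n`,
`K_v = v (a₁ - a₀) + v (a - a₀)`; so `v b ≤ K'_v M_v ^ (n (#E - 1))` with `K'_v > 0` independent of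
`r, s`.  Finally `∑_{v infinite} mult v * log M_v = logHeight₁ (r / s)`: by
`logHeight₁_div_eq_logHeight` the right side is `logHeight ![r, s]`, i.e. that sum plus
`∑ᶠ_{w finite} log max (w r) (w s)` (`NumberField.logHeight_eq` or similar), and
`max (w r) (w s) = 1` for finite `w` (both `≤ 1`, one `= 1`). -/
def RB : Prop :=
  ∀ (k : Type u) [Field k] [NumberField k] [DecidableEq k] (n : ℕ) (E : Finset k)
    (c a₀ a₁ : k), 1 ≤ n → a₀ ∈ E → a₁ ∈ E → a₀ ≠ a₁ → c ≠ 0 →
    ∃ q : 𝓞 k, q ≠ 0 ∧ ∃ C : ℝ, ∀ r s : 𝓞 k, r ≠ 0 → s ≠ 0 →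
      (∀ w : FinitePlace k, w (r : k) = 1 ∨ w (s : k) = 1) →
      ∃ b : 𝓞 k, (b : k) = (q : k) ^ (n * E.card) * bb n E c a₀ a₁ (r : k) (s : k) ∧
        (b ≠ 0 → Real.log |(Algebra.norm ℤ b : ℝ)| ≤
          (n : ℝ) * ((E.card : ℝ) - 1) * logHeight₁ ((r : k) / (s : k)) + C)

/-- **RH** (the left-hand side at a rational point).
Proof.  `t = r / s`, `τ = t ^ n`, `δ = a₁ - a₀`, `x = a₀ + δ τ`, `H = logHeight₁ τ = n logHeight₁ t`
(`logHeight₁_pow`), `e = eInf n E ≥ 1`.  All `O(1)` are independent of `r, s`.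
(1) `|logHeight₁ x - H| ≤ O(1)` (`logHeight₁_add_le`, `logHeight₁_mul_le`, `τ = (x - a₀) / δ`).
(2) `∑_{v ∈ S} logPlus (nabs v x) ≥ H - O(1)`: for every `v`,
`logPlus (nabs v τ) ≤ logPlus (nabs v x) + O_v(1)` from `τ = (x - a₀) / δ`, and
`∑_{v ∈ S} logPlus (nabs v τ) = H` by `sum_logPlus_nabs` of `SUnitDisproof` (`τ` is an `S`-unit).
(3) `∑_{v ∈ S} logPlus (nabs v (x - a₀)⁻¹) ≥ H - O(1)`: `(x - a₀)⁻¹ = δ⁻¹ τ⁻¹`, and
`∑_{v ∈ S} logPlus (nabs v τ⁻¹) = logHeight₁ τ⁻¹ = H`.
(4) `logPlus (nabs w₀ (x - a₁)⁻¹) ≥ - log (w₀ (t - 1)) - O(1)`: `x - a₁ = δ (τ - 1)`,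
`τ - 1 = (t - 1) (1 + t + … + t^(n-1))` and `w₀ (1 + t + … + t^(n-1)) ≤ 1` as `w₀ t = 1`
(nonarchimedean, `FinitePlace.add_le`), so `w₀ (x - a₁) ≤ w₀ δ * w₀ (t - 1)`, which is also the last
claim.  (`x ≠ a₁` as `x ∉ E`.)
(5) All other terms are `≥ 0`.  Sum:
`κ H + H / e + H / n + (1/n) (- log (w₀ (t - 1))) - O(1)` and
`κ + 1/e + 1/n = (1 - 1/n) #E - 1 + 1/n = (1 - 1/n) (#E - 1)`. -/
def RH : Prop :=
  ∀ (k : Type u) [Field k] [NumberField k] (n : ℕ) (E : Finset k)
    (a₀ a₁ : k) (S : Finset (Place k)) (w₀ : FinitePlace k),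
    1 ≤ n → a₀ ∈ E → a₁ ∈ E → a₀ ≠ a₁ → (∀ v : InfinitePlace k, Sum.inl v ∈ S) →
    (Sum.inr w₀ : Place k) ∈ S →
    ∃ C : ℝ, ∀ r s : 𝓞 k, r ≠ 0 → s ≠ 0 → r ≠ s →
      (∀ w : FinitePlace k, (Sum.inr w : Place k) ∉ S → w (r : k) = 1 ∧ w (s : k) = 1) →
      w₀ (r : k) = 1 → w₀ (s : k) = 1 →
      a₀ + (a₁ - a₀) * ((r : k) / (s : k)) ^ n ∉ E →
      (1 - 1 / (n : ℝ)) * ((E.card : ℝ) - 1) * ((n : ℝ) * logHeight₁ ((r : k) / (s : k))) +
          1 / (n : ℝ) * (- Real.log (w₀ ((r : k) / (s : k) - 1))) - C ≤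
        kappa n E * logHeight₁ (a₀ + (a₁ - a₀) * ((r : k) / (s : k)) ^ n) +
          prox₀ n E S (a₀ + (a₁ - a₀) * ((r : k) / (s : k)) ^ n) ∧
      logHeight₁ (a₀ + (a₁ - a₀) * ((r : k) / (s : k)) ^ n) ≤
        (n : ℝ) * logHeight₁ ((r : k) / (s : k)) + C ∧
      w₀ (a₀ + (a₁ - a₀) * ((r : k) / (s : k)) ^ n - a₁) ≤
        w₀ (a₁ - a₀) * w₀ ((r : k) / (s : k) - 1)

/-- **TRS** (a point of `X` over a rational point of the line).  To be proved from `PLI`, `PLF`,
`HTE`, `DSC`.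
Proof.  Choose `y` in the algebraic closure with `y ^ n = ι (ff E c x)`
(`IsAlgClosed.exists_pow_nat_eq`), `P = (ι x, y)`, `K = resField P`.  `K` is generated over `k` by
`y` (as `ι x` is in the image of `k`), so `deg P ≤ n` (`y` is a root of `X ^ n - C (ff E c x)`,
`IntermediateField.adjoin.finrank`, `minpoly.min` or `natDegree_le`).  `xRes P = algebraMap k K x`.
`ht`: `HTE`.  `prox`: the set `{w | ∃ v ∈ S, Above v w}` is the disjoint union over `v ∈ S` of the
finite sets `{w | Above v w}` (a place `w` lies above only one `v`), `weil` is a fixed linear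
combination of terms `logPlus (nabs w (algebraMap k K z))` with `z = x`, `z = (x - a)⁻¹`; use
`PLI`, `PLF` and `finsum_mem_add_distrib`, `finsum_mem_biUnion`.  `logDiscr`: the element
`z y` of `K` is integral, `(z y) ^ n = z ^ n ff E c x = b`, and generates `K` (`z ≠ 0`): `DSC` and
divide by `deg P = [K : k]`. -/
def TRS : Prop :=
  ∀ (k : Type u) [Field k] [NumberField k] (n : ℕ) (E : Finset k) (c x z : k) (b : 𝓞 k),
    1 ≤ n → x ∉ E → z ≠ 0 → b ≠ 0 → (b : k) = z ^ n * ff E c x →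
    ∃ P : Pt n E c, P.x = algebraMap k (AlgebraicClosure k) x ∧ deg P ≤ n ∧
      ht P = logHeight₁ x ∧ (∀ S : Finset (Place k), prox S P = prox₀ n E S x) ∧
      logDiscr P ≤ Real.log |(NumberField.discr k : ℝ)| +
        (Module.finrank ℚ k : ℝ) * Real.log n +
        (1 - 1 / (n : ℝ)) * Real.log |(Algebra.norm ℤ b : ℝ)|

/-- **RAT** (summary of the construction over `k`).  To be proved from `APP`, `RB`, `RH`. -/
def RAT : Prop :=
  ∀ (k : Type u) [Field k] [NumberField k] (n : ℕ) (E : Finset k) (c : k)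
    (S : Finset (Place k)), 1 ≤ n → 2 ≤ E.card → c ≠ 0 →
    (∀ v : InfinitePlace k, Sum.inl v ∈ S) → (∃ v : FinitePlace k, Sum.inr v ∈ S) →
    2 < S.card →
    ∃ (w₀ : FinitePlace k) (a₁ : k) (C : ℝ), a₁ ∈ E ∧ ∀ m₀ : ℕ, ∃ m : ℕ, m₀ ≤ m ∧
      ∃ (x z : k) (b : 𝓞 k), x ∉ E ∧ z ≠ 0 ∧ b ≠ 0 ∧ (b : k) = z ^ n * ff E c x ∧
        w₀ (x - a₁) ≤ C * ((Ideal.absNorm w₀.maximalIdeal.asIdeal : ℝ) ^ m)⁻¹ ∧
        (1 - 1 / (n : ℝ)) * Real.log |(Algebra.norm ℤ b : ℝ)| +
            1 / (n : ℝ) * (m * Real.log (Ideal.absNorm w₀.maximalIdeal.asIdeal : ℝ)) - C ≤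
          kappa n E * logHeight₁ x + prox₀ n E S x ∧
        logHeight₁ x ≤ C * (Ideal.absNorm w₀.maximalIdeal.asIdeal : ℝ) ^
          ((m : ℝ) / ((S.card : ℝ) - 2))

/-- The main theorem. -/
def Main : Prop :=
  ∀ (k : Type u) [Field k] [NumberField k] (n : ℕ) (E : Finset k) (c : k), 1 ≤ n →
    2 ≤ E.card → c ≠ 0 → ∀ T : Finset (Pt n E c),
    ∀ S : Finset (Place k), (∀ v : InfinitePlace k, Sum.inl v ∈ S) →
      (∃ v : FinitePlace k, Sum.inr v ∈ S) →
      ∀ C : ℝ, 0 < C → C < ((S.card : ℝ) - 2) / n → ∀ r : ℕ, n ≤ r → Fails k n E c T r S C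

end Pool.Agent.Helper96.SE
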